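import Pool.Agent.helper5.PR.SpecZ

set_option autoImplicit false

namespace Pool.Agent.PR

open Matrix Module

section
variable {K V Q : Type} [Field K] [AddCommGroup V] [Module K V] [Group Q]

/-- flags of invariant subspaces with the characters of their steps -/
inductive Z_UNIP_Fl (ρ : Q →* Module.End K V) : Submodule K V → List (Q →* K) → Prop
  | bot : Z_UNIP_Fl ρ ⊥ []
  | step (W : Submodule K V) (L : List (Q →* K)) (v : V) (χ : Q →* K) (h : Z_UNIP_Fl ρ W L) (hv : v ∉ W)
      (hχ : ∀ g, ρ g v - χ g • v ∈ W) : Z_UNIP_Fl ρ (W ⊔ Submodule.span K {v}) (χ :: L)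

theorem Z_UNIP_sup (ρ : Q →* Module.End K V) (W : Submodule K V) (hW : InvS ρ W) (v : V)
    (hv : ∀ g, ∃ c : K, ρ g v - c • v ∈ W) : InvS ρ (W ⊔ Submodule.span K {v}) := by
  intro g w hw
  obtain ⟨w₀, hw₀, z, hz, rfl⟩ := Submodule.mem_sup.1 hw
  obtain ⟨a, rfl⟩ := Submodule.mem_span_singleton.1 hz
  obtain ⟨c, hc⟩ := hv g
  rw [map_add, map_smul]
  have e : ρ g w₀ + a • ρ g v = (ρ g w₀ + a • (ρ g v - c • v)) + (a * c) • v := by
    rw [smul_sub, smul_smul]; abel
  rw [e]
  exact Submodule.add_mem_sup (W.add_mem (hW g w₀ hw₀) (W.smul_mem a hc))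
    (Submodule.smul_mem _ _ (Submodule.mem_span_singleton_self v))

theorem Z_UNIP_inv (ρ : Q →* Module.End K V) (W : Submodule K V) (L : List (Q →* K)) (h : Z_UNIP_Fl ρ W L) :
    InvS ρ W := by
  induction h with
  | bot => intro g w hw; rw [Submodule.mem_bot] at hw; rw [hw, map_zero]; exact Submodule.zero_mem _
  | step W L v χ h hv hχ ih => exact Z_UNIP_sup ρ W ih v (fun g => ⟨χ g, hχ g⟩)

theorem Z_UNIP_inv1 (ρ : Q →* Module.End K V) (W : Submodule K V) (hW : InvS ρ W) (g : Q) :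
    ∀ w ∈ W, (ρ g - 1) w ∈ W := by
  intro w hw
  rw [LinearMap.sub_apply, Module.End.one_apply]
  exact W.sub_mem (hW g w hw) hw

theorem Z_UNIP_invp (ρ : Q →* Module.End K V) (W : Submodule K V) (hW : InvS ρ W) (g : Q) (N : ℕ) :
    ∀ w ∈ W, ((ρ g - 1) ^ N) w ∈ W := by
  induction N with
  | zero => intro w hw; simpa using hw
  | succ N ih =>
    intro w hw
    rw [pow_succ, Module.End.mul_apply]
    exact ih _ (Z_UNIP_inv1 ρ W hW g w hw)

theorem Z_UNIP_char (ρ : Q →* Module.End K V) (W : Submodule K V) (L : List (Q →* K)) (h : Z_UNIP_Fl ρ W L) :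
    ∀ g : Q, (∀ χ ∈ L, χ g = 1) ↔ ∃ N : ℕ, ∀ w ∈ W, ((ρ g - 1) ^ N) w = 0 := by
  induction h with
  | bot =>
    intro g
    simp only [List.not_mem_nil, false_imp_iff, implies_true, true_iff]
    refine ⟨0, fun w hw => ?_⟩
    rw [Submodule.mem_bot] at hw
    rw [hw, map_zero]
  | step W L v χ h hv hχ ih =>
    intro g
    have hW := Z_UNIP_inv ρ W L h
    constructor
    · intro hg
      obtain ⟨N, hN⟩ := (ih g).1 (fun ψ hψ => hg ψ (List.mem_cons_of_mem _ hψ))
      have h1 : χ g = 1 := hg χ List.mem_cons_self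
      refine ⟨N + 1, fun w hw => ?_⟩
      obtain ⟨w₀, hw₀, z, hz, rfl⟩ := Submodule.mem_sup.1 hw
      obtain ⟨a, rfl⟩ := Submodule.mem_span_singleton.1 hz
      rw [pow_succ, Module.End.mul_apply]
      apply hN
      rw [map_add, map_smul]
      refine W.add_mem (Z_UNIP_inv1 ρ W hW g w₀ hw₀) (W.smul_mem a ?_)
      have h2 := hχ g
      rw [h1, one_smul] at h2
      rw [LinearMap.sub_apply, Module.End.one_apply]
      exact h2
    · rintro ⟨N, hN⟩
      have h1 : ∀ ψ ∈ L, ψ g = 1 := (ih g).2 ⟨N, fun w hw => hN w (Submodule.mem_sup_left hw)⟩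
      have h2 : ∀ M : ℕ, ((ρ g - 1) ^ M) v - (χ g - 1) ^ M • v ∈ W := by
        intro M
        induction M with
        | zero => simp
        | succ M ihM =>
          have e : ((ρ g - 1) ^ (M + 1)) v - (χ g - 1) ^ (M + 1) • v =
              (ρ g - 1) (((ρ g - 1) ^ M) v - (χ g - 1) ^ M • v) + (χ g - 1) ^ M • (ρ g v - χ g • v) := by
            rw [pow_succ', Module.End.mul_apply, map_sub, map_smul, pow_succ]
            rw [LinearMap.sub_apply (ρ g) 1 v, Module.End.one_apply]
            rw [mul_smul, sub_smul, one_smul]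
            simp only [smul_sub]
            abel
          rw [e]
          exact W.add_mem (Z_UNIP_inv1 ρ W hW g _ ihM) (W.smul_mem _ (hχ g))
      have h3 := h2 N
      rw [hN v (Submodule.mem_sup_right (Submodule.mem_span_singleton_self v)), zero_sub, neg_mem_iff] at h3
      have h4 : (χ g - 1) ^ N = 0 := by
        by_contra hne
        exact hv ((W.smul_mem_iff hne).1 h3)
      have h5 : χ g = 1 := sub_eq_zero.1 (eq_zero_of_pow_eq_zero h4)
      intro ψ hψ
      rcases List.mem_cons.1 hψ with rfl | hψ'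
      · exact h5
      · exact h1 ψ hψ'

theorem Z_UNIP_tri {Q' : Type} [Group Q'] (ρ : Q →* Module.End K V) (f : Q' →* Q) (F : Submodule K V)
    (L : List (Q →* K)) (h : Z_UNIP_Fl ρ F L) : ∀ W U : Submodule K V, InvS (ρ.comp f) U →
    ¬ F ⊓ U ≤ W → ∃ v ∈ U, v ∉ W ∧ ∀ g : Q', ∃ c : K, (ρ.comp f) g v - c • v ∈ W := by
  induction h with
  | bot => intro W U _ hn; exact absurd (by simp) hn
  | step F L v χ h hv hχ ih =>
    intro W U hU hn
    by_cases hc : F ⊓ U ≤ W
    · rw [SetLike.not_le_iff_exists] at hn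
      obtain ⟨u, hu, huW⟩ := hn
      obtain ⟨hu1, hu2⟩ := Submodule.mem_inf.1 hu
      refine ⟨u, hu2, huW, fun g => ⟨χ (f g), ?_⟩⟩
      apply hc
      refine Submodule.mem_inf.2 ⟨?_, U.sub_mem (hU g u hu2) (U.smul_mem _ hu2)⟩
      obtain ⟨w₀, hw₀, z, hz, rfl⟩ := Submodule.mem_sup.1 hu1
      obtain ⟨a, rfl⟩ := Submodule.mem_span_singleton.1 hz
      have hF := Z_UNIP_inv ρ F L h
      have e : (ρ.comp f) g (w₀ + a • v) - χ (f g) • (w₀ + a • v) =
          (ρ (f g) w₀ - χ (f g) • w₀) + a • (ρ (f g) v - χ (f g) • v) := by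
        rw [MonoidHom.comp_apply, map_add, map_smul, smul_add, smul_sub, smul_comm (χ (f g)) a v]
        abel
      rw [e]
      exact F.add_mem (F.sub_mem (hF _ _ hw₀) (F.smul_mem _ hw₀)) (F.smul_mem a (hχ _))
    · exact ih W U hU hc

theorem Z_UNIP_ex [FiniteDimensional K V] (ρ : Q →* Module.End K V) (hρ : TriS ρ) :
    ∃ L : List (Q →* K), Z_UNIP_Fl ρ ⊤ L := by
  classical
  have hex : ∃ n : ℕ, ∃ W : Submodule K V, ∃ L : List (Q →* K), Z_UNIP_Fl ρ W L ∧ finrank K W = n :=
    ⟨_, ⊥, [], Z_UNIP_Fl.bot, rfl⟩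
  have hbd : ∀ n : ℕ, (∃ W : Submodule K V, ∃ L : List (Q →* K), Z_UNIP_Fl ρ W L ∧ finrank K W = n) →
      n ≤ finrank K V := by
    rintro n ⟨W, L, _, rfl⟩
    exact Submodule.finrank_le W
  set n := Nat.findGreatest (fun n => ∃ W : Submodule K V, ∃ L : List (Q →* K), Z_UNIP_Fl ρ W L ∧ finrank K W = n)
    (finrank K V) with hn
  obtain ⟨m, hm⟩ := hex
  obtain ⟨W, L, hFl, hWn⟩ : ∃ W : Submodule K V, ∃ L : List (Q →* K), Z_UNIP_Fl ρ W L ∧ finrank K W = n :=
    Nat.findGreatest_spec (P := fun n => ∃ W : Submodule K V, ∃ L : List (Q →* K), Z_UNIP_Fl ρ W L ∧ finrank K W = n)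
      (hbd m hm) hm
  by_cases htop : W = ⊤
  · exact ⟨L, htop ▸ hFl⟩
  · exfalso
    have hW := Z_UNIP_inv ρ W L hFl
    obtain ⟨v, -, hvW, hv⟩ := hρ W ⊤ hW (fun g w _ => Submodule.mem_top) (lt_top_iff_ne_top.2 htop)
    choose c hc using hv
    have huniq : ∀ (x : V) (a b : K), x - a • v ∈ W → x - b • v ∈ W → a = b := by
      intro x a b ha hb
      by_contra hab
      have h1 : (b - a) • v ∈ W := by
        have := W.sub_mem ha hb
        have e : x - a • v - (x - b • v) = (b - a) • v := by rw [sub_smul]; abel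
        rwa [e] at this
      exact hvW ((W.smul_mem_iff (sub_ne_zero.2 (Ne.symm hab))).1 h1)
    let χ : Q →* K :=
      { toFun := c
        map_one' := by
          apply huniq v
          · have := hc 1
            rwa [map_one, Module.End.one_apply] at this
          · rw [one_smul, sub_self]; exact W.zero_mem
        map_mul' := by
          intro g h
          apply huniq (ρ (g * h) v) _ _ (hc (g * h))
          have e : ρ (g * h) v - (c g * c h) • v = ρ g (ρ h v - c h • v) + c h • (ρ g v - c g • v) := by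
            rw [map_mul, Module.End.mul_apply, map_sub, map_smul, smul_sub, smul_smul, mul_comm (c g)]
            abel
          rw [e]
          exact W.add_mem (hW g _ (hc h)) (W.smul_mem _ (hc g)) }
    have hstep := Z_UNIP_Fl.step W L v χ hFl hvW (fun g => hc g)
    have hlt : W < W ⊔ Submodule.span K {v} := by
      refine lt_of_le_of_ne le_sup_left (fun he => hvW ?_)
      rw [he]
      exact Submodule.mem_sup_right (Submodule.mem_span_singleton_self v)
    have hfr := Submodule.finrank_lt_finrank_of_lt hlt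
    have hle : finrank K (W ⊔ Submodule.span K {v} : Submodule K V) ≤ n := by
      apply Nat.le_findGreatest (Submodule.finrank_le _)
      exact ⟨_, _, hstep, rfl⟩
    omega

end

theorem Z_UNIP (hUNI : N_UNI_stmt) : Z_UNIP_stmt := by
  intro K V _ _ _ _ Q _ ρ hρ hinj
  obtain ⟨L, hL⟩ := Z_UNIP_ex ρ hρ
  have hchar : ∀ g : Q, (∀ χ ∈ L, χ g = 1) ↔ IsNilpotent (ρ g - 1) := by
    intro g
    rw [Z_UNIP_char ρ ⊤ L hL g]
    constructor
    · rintro ⟨N, hN⟩
      refine ⟨N, LinearMap.ext fun w => ?_⟩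
      rw [hN w Submodule.mem_top]; rfl
    · rintro ⟨N, hN⟩
      exact ⟨N, fun w _ => by rw [hN]; rfl⟩
  let U : Subgroup Q :=
    { carrier := {g | ∀ χ ∈ L, χ g = 1}
      one_mem' := fun χ _ => map_one χ
      mul_mem' := fun {a b} ha hb χ hχ => by rw [map_mul, ha χ hχ, hb χ hχ, one_mul]
      inv_mem' := fun {a} ha χ hχ => by
        have h1 : χ (a⁻¹ * a) = 1 := by rw [inv_mul_cancel, map_one]
        rw [map_mul, ha χ hχ, mul_one] at h1
        exact h1 }
  have hU : ∀ g : Q, g ∈ U ↔ ∀ χ ∈ L, χ g = 1 := fun g => Iff.rfl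
  have hnorm : U.Normal := by
    constructor
    intro n hn g χ hχ
    have h1 : χ (g * g⁻¹) = 1 := by rw [mul_inv_cancel, map_one]
    rw [map_mul] at h1
    rw [map_mul, map_mul, hn χ hχ, mul_one, h1]
  refine ⟨U, hnorm, ?_, fun g => (hU g).trans (hchar g), ?_⟩
  · rw [commutator_def, Subgroup.commutator_le]
    intro a _ b _ χ hχ
    have h1 : χ a * χ a⁻¹ = 1 := by rw [← map_mul, mul_inv_cancel, map_one]
    have h2 : χ b * χ b⁻¹ = 1 := by rw [← map_mul, mul_inv_cancel, map_one]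
    rw [commutatorElement_def, map_mul, map_mul, map_mul]
    calc χ a * χ b * χ a⁻¹ * χ b⁻¹ = (χ a * χ a⁻¹) * (χ b * χ b⁻¹) := by ring
      _ = 1 := by rw [h1, h2, one_mul]
  · have htri : TriS (ρ.comp U.subtype) := by
      intro W U' _ hU' hlt
      apply Z_UNIP_tri ρ U.subtype ⊤ L hL W U' hU'
      rw [top_inf_eq]
      exact not_le_of_gt hlt
    have hkey := hUNI K V U (ρ.comp U.subtype) htri (fun g => ⟨1, by
      rw [one_smul]
      exact (hchar g.1).1 ((hU g.1).1 g.2)⟩) (finrank K V + 1) (by omega)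
    rw [Subgroup.nilpotent_iff_lowerCentralSeries]
    refine ⟨finrank K V + 1, ?_⟩
    rw [Subgroup.eq_bot_iff_forall]
    intro t ht
    have h1 := hkey t ht
    have h2 : finrank K (LinearMap.range ((ρ.comp U.subtype) t - 1)) = 0 := by omega
    rw [Submodule.finrank_eq_zero, LinearMap.range_eq_bot, sub_eq_zero] at h2
    apply Subtype.ext
    apply hinj
    rw [show ρ (t : Q) = (ρ.comp U.subtype) t from rfl, h2]
    exact (map_one ρ).symm

end Pool.Agent.PR
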