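import Pool.Agent.helper5.PR.SpecK

set_option autoImplicit false

namespace Pool.Agent.PR

open Matrix Cardinal

theorem K_AI_basis (ℓ : ℕ) [Fact ℓ.Prime] (d : ℕ) :
    ∃ v : Fin d → ℚ_[ℓ], AlgebraicIndependent ℚ v := by
  obtain ⟨s, hs⟩ := exists_isTranscendenceBasis ℚ ℚ_[ℓ]
  have hinf : Infinite s := by
    by_contra h
    rw [not_infinite_iff_finite] at h
    have h1 : Algebra.IsAlgebraic (Algebra.adjoin ℚ (Set.range ((↑) : s → ℚ_[ℓ]))) ℚ_[ℓ] :=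
      hs.isAlgebraic
    have h2 := Algebra.IsAlgebraic.cardinalMk_le_max
      (Algebra.adjoin ℚ (Set.range ((↑) : s → ℚ_[ℓ]))) ℚ_[ℓ]
    have h3 := Algebra.cardinalMk_adjoin_le ℚ (Set.range ((↑) : s → ℚ_[ℓ]))
    have h4 : #(Set.range ((↑) : s → ℚ_[ℓ])) ≤ ℵ₀ := (Set.countable_range _).le_aleph0
    have h5 : #ℚ ≤ ℵ₀ := Cardinal.mk_le_aleph0
    have h6 := continuum_le_cardinal_of_nontriviallyNormedField ℚ_[ℓ]
    have h7 : #(Algebra.adjoin ℚ (Set.range ((↑) : s → ℚ_[ℓ]))) ≤ ℵ₀ :=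
      h3.trans (sup_le (sup_le h5 h4) le_rfl)
    have h8 : (𝔠 : Cardinal) ≤ ℵ₀ := h6.trans (h2.trans (sup_le h7 le_rfl))
    exact absurd h8 aleph0_lt_continuum.not_ge
  obtain ⟨f⟩ : Nonempty (Fin d ↪ s) :=
    ⟨(Fin.valEmbedding).trans (Infinite.natEmbedding s)⟩
  exact ⟨fun i => f i, hs.1.comp f f.injective⟩

theorem K_AI_affine {K : Type} [Field K] [Algebra ℚ K] {d : ℕ} (v : Fin d → K)
    (hv : AlgebraicIndependent ℚ v) (a b : Fin d → ℚ) (ha : ∀ i, a i ≠ 0) :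
    AlgebraicIndependent ℚ (fun i => algebraMap ℚ K (b i) + algebraMap ℚ K (a i) * v i) := by
  unfold AlgebraicIndependent at hv ⊢
  have e : (MvPolynomial.aeval (fun i => algebraMap ℚ K (b i) + algebraMap ℚ K (a i) * v i) :
      MvPolynomial (Fin d) ℚ →ₐ[ℚ] K) =
      (MvPolynomial.aeval v).comp (MvPolynomial.aeval
        (fun i => (MvPolynomial.C (b i) + MvPolynomial.C (a i) * MvPolynomial.X i :
          MvPolynomial (Fin d) ℚ))) := by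
    apply MvPolynomial.algHom_ext
    intro i
    simp
  have e2 : ((MvPolynomial.aeval (fun i => (MvPolynomial.C (a i)⁻¹ *
        (MvPolynomial.X i - MvPolynomial.C (b i)) : MvPolynomial (Fin d) ℚ))) :
      MvPolynomial (Fin d) ℚ →ₐ[ℚ] MvPolynomial (Fin d) ℚ).comp (MvPolynomial.aeval
        (fun i => (MvPolynomial.C (b i) + MvPolynomial.C (a i) * MvPolynomial.X i :
          MvPolynomial (Fin d) ℚ))) = AlgHom.id ℚ _ := by
    apply MvPolynomial.algHom_ext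
    intro i
    have h : (MvPolynomial.C (a i) * MvPolynomial.C (a i)⁻¹ : MvPolynomial (Fin d) ℚ) = 1 := by
      rw [← MvPolynomial.C_mul, mul_inv_cancel₀ (ha i), MvPolynomial.C_1]
    simp only [AlgHom.comp_apply, MvPolynomial.aeval_X, map_add, map_mul,
      MvPolynomial.algHom_C, MvPolynomial.algebraMap_eq, AlgHom.id_apply]
    linear_combination (MvPolynomial.X i - MvPolynomial.C (b i)) * h
  rw [e]
  intro p q hpq
  have h1 := hv hpq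
  have h2 := congrArg (MvPolynomial.aeval (fun i => (MvPolynomial.C (a i)⁻¹ *
        (MvPolynomial.X i - MvPolynomial.C (b i)) : MvPolynomial (Fin d) ℚ))) h1
  have h3 := DFunLike.congr_fun e2 p
  have h4 := DFunLike.congr_fun e2 q
  rw [AlgHom.comp_apply, AlgHom.id_apply] at h3 h4
  rw [← h3, ← h4]
  exact h2

theorem K_AI_scale (ℓ : ℕ) [Fact ℓ.Prime] (v : ℚ_[ℓ]) :
    ∃ (k : ℕ) (x : ℤ_[ℓ]), (x : ℚ_[ℓ]) = (ℓ : ℚ_[ℓ]) ^ k * v := by
  obtain ⟨k, hk⟩ := exists_pow_lt_of_lt_one (x := 1 / (‖v‖ + 1)) (by positivity)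
    (Padic.norm_p_lt_one (p := ℓ))
  have h : ‖(ℓ : ℚ_[ℓ]) ^ k * v‖ ≤ 1 := by
    rw [norm_mul, norm_pow]
    have h0 : 0 ≤ ‖v‖ := norm_nonneg v
    have h1 : ‖(ℓ : ℚ_[ℓ])‖ ^ k * ‖v‖ ≤ 1 / (‖v‖ + 1) * ‖v‖ :=
      mul_le_mul_of_nonneg_right hk.le h0
    refine h1.trans ?_
    rw [one_div_mul_eq_div, div_le_one (by positivity)]
    linarith
  exact ⟨k, ⟨_, h⟩, rfl⟩

theorem K_AI : K_AI_stmt := by
  intro ℓ hℓ d
  obtain ⟨v, hv⟩ := K_AI_basis ℓ d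
  choose k x hx using fun i => K_AI_scale ℓ (v i)
  refine ⟨x, fun β => ?_⟩
  have h1 := K_AI_affine v hv (fun i => (ℓ : ℚ) ^ (k i + 1)) (fun i => (β i : ℚ)) (by
    intro i
    have : (ℓ : ℚ) ≠ 0 := by exact_mod_cast hℓ.out.ne_zero
    positivity)
  have h2 := h1.map' (f := (IsScalarTower.toAlgHom ℚ ℚ_[ℓ] (Om ℓ)))
    (algebraMap ℚ_[ℓ] (Om ℓ)).injective
  have e : (fun i => algebraMap ℤ_[ℓ] (Om ℓ) ((β i : ℤ_[ℓ]) + (ℓ : ℤ_[ℓ]) * x i)) =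
      (IsScalarTower.toAlgHom ℚ ℚ_[ℓ] (Om ℓ)) ∘ (fun i => algebraMap ℚ ℚ_[ℓ] (β i : ℚ) +
        algebraMap ℚ ℚ_[ℓ] ((ℓ : ℚ) ^ (k i + 1)) * v i) := by
    funext i
    rw [IsScalarTower.algebraMap_apply ℤ_[ℓ] ℚ_[ℓ] (Om ℓ)]
    simp only [Function.comp_apply, IsScalarTower.coe_toAlgHom']
    congr 1
    have h3 : algebraMap ℤ_[ℓ] ℚ_[ℓ] (x i) = (ℓ : ℚ_[ℓ]) ^ k i * v i := hx i
    simp only [map_add, map_mul, map_intCast, map_natCast, map_pow, h3]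
    ring
  rw [e]
  exact h2

end Pool.Agent.PR
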