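import Pool.Agent.helper5.PR.SpecM

set_option autoImplicit false

namespace Pool.Agent.PR

open Matrix

theorem M_TRA_cop {m a : ℤ} (h : m ∣ a - 1) : IsCoprime a m := by
  obtain ⟨t, ht⟩ := h
  exact ⟨1, -t, by linarith⟩

theorem M_TRA_adm {m a b : ℤ} (h : m ∣ a - 1) (hb : IsCoprime a b) : Adm m a (m * b) :=
  ⟨h, dvd_mul_right _ _, (M_TRA_cop h).mul_right hb⟩

theorem M_TRA_pow_dvd {m a : ℤ} (h : m ∣ a - 1) (k : ℕ) : m ∣ a ^ k - 1 := by
  have h1 : a - 1 ∣ a ^ k - 1 := by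
    have := sub_dvd_pow_sub_pow a 1 k
    rwa [one_pow] at this
  exact h.trans h1

theorem M_TRA_fermat {p : ℕ} (hp : p.Prime) {b : ℤ} (h : IsCoprime b (p : ℤ)) :
    (p : ℤ) ∣ b ^ (p - 1) - 1 := by
  have h1 := Int.ModEq.pow_card_sub_one_eq_one hp h
  exact (Int.modEq_iff_dvd.mp h1.symm)

theorem M_TRA : M_TRA_stmt := by
  intro m hm C _ χ hχ
  have c1 : ∀ a b t : ℤ, m ∣ a - 1 → IsCoprime a b → χ (m * (b + t * a)) a = χ (m * b) a := by
    intro a b t h hb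
    have := hχ.p1 a (m * b) t (M_TRA_adm h hb)
    rw [← this]
    congr 1
    ring
  have c2 : ∀ a : ℤ, m ∣ a - 1 → χ (m * 1) a = 1 := by
    intro a h
    obtain ⟨t, ht⟩ := h
    have h1 : a = 1 + t * (m * 1) := by linarith
    have h2 := hχ.p2 1 (m * 1) t ⟨by simp, dvd_mul_right _ _, isCoprime_one_left⟩
    rw [h1, h2]
    exact hχ.p5 _ (dvd_mul_right _ _)
  have c0 : ∀ a b : ℤ, m ∣ a - 1 → IsCoprime a b → χ (m * (m * b)) a = χ (m * b) a := by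
    intro a b h hb
    have := hχ.p3 a (m * b) (m * 1) (M_TRA_adm h hb) (M_TRA_adm h isCoprime_one_right)
    rw [c2 a h] at this
    rw [← mul_one (χ (m * b) a), ← this]
    congr 1
    ring
  have c3 : ∀ a b b' : ℤ, m ∣ a - 1 → IsCoprime a b → IsCoprime a b' →
      χ (m * (b * b')) a = χ (m * b) a * χ (m * b') a := by
    intro a b b' h hb hb'
    rw [← c0 a (b * b') h (hb.mul_right hb'), ← hχ.p3 a (m * b) (m * b') (M_TRA_adm h hb)
      (M_TRA_adm h hb')]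
    congr 1
    ring
  have c4 : ∀ a b : ℤ, ∀ k : ℕ, m ∣ a - 1 → IsCoprime a b →
      χ (m * b ^ k) a = χ (m * b) a ^ k := by
    intro a b k h hb
    induction k with
    | zero => rw [pow_zero, pow_zero, c2 a h]
    | succ k ih => rw [pow_succ, c3 a (b ^ k) b h hb.pow_right hb, ih, pow_succ]
  have c6 : ∀ a b : ℤ, ∀ k : ℕ, Adm m a b → χ b (a ^ k) = χ b a ^ k := by
    intro a b k h
    induction k with
    | zero => rw [pow_zero, pow_zero, hχ.p5 b h.2.1]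
    | succ k ih =>
      rw [pow_succ, hχ.p4 (a ^ k) a b ⟨M_TRA_pow_dvd h.1 k, h.2.1, h.2.2.pow_left⟩ h, ih,
        pow_succ]
  refine ⟨c1, c2, c3, c4, ?_, ?_⟩
  · intro p b hp h hb
    have h1 : m ∣ -(p : ℤ) - 1 := by
      obtain ⟨t, ht⟩ := h
      exact ⟨-t, by linarith⟩
    have h2 : IsCoprime (-(p : ℤ)) b := hb.neg_left
    rw [← c4 _ b (p - 1) h1 h2]
    obtain ⟨t, ht⟩ := M_TRA_fermat hp hb.symm
    have h3 : b ^ (p - 1) = 1 + (-t) * (-(p : ℤ)) := by linarith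
    rw [h3, c1 _ 1 (-t) h1 isCoprime_one_right, c2 _ h1]
  · intro l a hl hlm h ha
    rw [← c6 a (m * l) (l - 1) (M_TRA_adm h ha)]
    have h1 : (l : ℤ) ∣ a ^ (l - 1) - 1 := M_TRA_fermat hl ha
    have h2 : m ∣ a ^ (l - 1) - 1 := M_TRA_pow_dvd h _
    have h3 : IsCoprime m (l : ℤ) :=
      ((Prime.coprime_iff_not_dvd (Nat.prime_iff_prime_int.mp hl)).mpr hlm).symm
    obtain ⟨t, ht⟩ := h3.mul_dvd h2 h1
    have h4 : a ^ (l - 1) = 1 + t * (m * (l : ℤ)) := by linarith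
    rw [h4, hχ.p2 1 (m * (l : ℤ)) t ⟨by simp, dvd_mul_right _ _, isCoprime_one_left⟩]
    exact hχ.p5 _ (dvd_mul_right _ _)

end Pool.Agent.PR
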