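import Pool.Agent.helper5.PR.SpecS

set_option autoImplicit false

namespace Pool.Agent.PR

open Matrix Pool.Agent.H48SL

section partA

variable {ι : Type} [Fintype ι] [DecidableEq ι]

theorem S_ZDH_comm {G : Type} [Group G] {N : Subgroup G} (hN : N.Normal) {a b : G} :
    (a ∈ N → a * b * a⁻¹ * b⁻¹ ∈ N) ∧ (b ∈ N → a * b * a⁻¹ * b⁻¹ ∈ N) := by
  constructor
  · intro ha
    have h1 := hN.conj_mem a⁻¹ (N.inv_mem ha) b
    have h2 : a * b * a⁻¹ * b⁻¹ = a * (b * a⁻¹ * b⁻¹) := by group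
    rw [h2]
    exact N.mul_mem ha h1
  · intro hb
    exact N.mul_mem (hN.conj_mem b hb a) (N.inv_mem hb)

theorem S_ZDH_right {N : Subgroup (SpecialLinearGroup ι ℤ)} (hN : N.Normal) {k j i : ι} {c : ℤ}
    (hkj : k ≠ j) (hki : k ≠ i) (h : xe k j c ∈ N) : xe k i c ∈ N := by
  by_cases hij : i = j
  · rw [hij]; exact h
  have h1 : (Pi.single j c : ι → ℤ) ⬝ᵥ (Pi.single k 1) = 0 := single_dot hkj c
  have h2 : (Pi.single i (1 : ℤ) : ι → ℤ) ⬝ᵥ (Pi.single j 1) = 0 := single_dot (Ne.symm hij) 1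
  have h3 : (Pi.single i (1 : ℤ) : ι → ℤ) ⬝ᵥ (Pi.single k 1) = 0 := single_dot hki 1
  have h4 := tv_commutator h1 h2 h3
  have h5 := (S_ZDH_comm hN (a := xe k j c) (b := xe j i 1)).1 h
  unfold xe at h5 ⊢
  rw [h4] at h5
  have h6 : ((Pi.single j c : ι → ℤ) ⬝ᵥ (Pi.single j 1)) • (Pi.single i (1 : ℤ) : ι → ℤ) =
      Pi.single i c := by
    ext l
    by_cases hl : l = i
    · subst hl; simp
    · simp [hl]
  rw [h6] at h5
  exact h5

theorem S_ZDH_left {N : Subgroup (SpecialLinearGroup ι ℤ)} (hN : N.Normal) {k j i : ι} {c : ℤ}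
    (hkj : k ≠ j) (hij : i ≠ j) (h : xe k j c ∈ N) : xe i j c ∈ N := by
  by_cases hik : i = k
  · rw [hik]; exact h
  have h1 : (Pi.single k (1 : ℤ) : ι → ℤ) ⬝ᵥ (Pi.single i 1) = 0 := single_dot hik 1
  have h2 : (Pi.single j c : ι → ℤ) ⬝ᵥ (Pi.single k 1) = 0 := single_dot hkj c
  have h3 : (Pi.single j c : ι → ℤ) ⬝ᵥ (Pi.single i 1) = 0 := single_dot hij c
  have h4 := tv_commutator h1 h2 h3
  have h5 := (S_ZDH_comm hN (a := xe i k 1) (b := xe k j c)).2 h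
  unfold xe at h5 ⊢
  rw [h4] at h5
  have h6 : ((Pi.single k (1 : ℤ) : ι → ℤ) ⬝ᵥ (Pi.single k 1)) • (Pi.single j c : ι → ℤ) =
      Pi.single j c := by
    simp
  rw [h6] at h5
  exact h5

theorem S_ZDH_third (hcard : 3 ≤ Fintype.card ι) (a b : ι) : ∃ l, l ≠ a ∧ l ≠ b := by
  by_contra hcon
  push Not at hcon
  have h : (Finset.univ : Finset ι) ⊆ {a, b} := by
    intro l _
    rw [Finset.mem_insert, Finset.mem_singleton]
    by_cases hl : l = a
    · exact Or.inl hl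
    · exact Or.inr (hcon l hl)
  have h2 := Finset.card_le_card h
  have h3 : ({a, b} : Finset ι).card ≤ 2 := Finset.card_le_two
  rw [Finset.card_univ] at h2
  omega

theorem S_ZDH_all (hcard : 3 ≤ Fintype.card ι) {N : Subgroup (SpecialLinearGroup ι ℤ)}
    (hN : N.Normal) {k j : ι} (hkj : k ≠ j) {c : ℤ} (h : xe k j c ∈ N) (i i' : ι) (hii : i ≠ i') :
    xe i i' c ∈ N := by
  by_cases hk : k = i'
  · subst hk
    obtain ⟨l, hl1, hl2⟩ := S_ZDH_third hcard i k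
    have h1 := S_ZDH_right hN hkj (Ne.symm hl2) h
    have h2 := S_ZDH_left hN (Ne.symm hl2) (Ne.symm hl1) h1
    exact S_ZDH_right hN (Ne.symm hl1) hii h2
  · exact S_ZDH_left hN hk hii (S_ZDH_right hN hkj hk h)

theorem S_ZDH_C (hcard : 3 ≤ Fintype.card ι) {e φ : ι → ℤ} (he : e ≠ 0) (hφ : φ ≠ 0)
    (h0 : φ ⬝ᵥ e = 0) : ∃ C : ℤ, C ≠ 0 ∧ ∀ N : Subgroup (SpecialLinearGroup ι ℤ), N.Normal →
      (∀ s : ℤ, tv e (s • φ) ∈ N) → ∀ i i', i ≠ i' → ∀ s : ℤ, xe i i' (s * C) ∈ N := by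
  obtain ⟨d, e', u, hd, hee, hu⟩ := primitive_part e he
  obtain ⟨k⟩ : Nonempty ι := by
    rw [← Fintype.card_pos_iff]; omega
  obtain ⟨a, -, ha⟩ := euclid (Finset.univ : Finset ι) k (Finset.mem_univ _)
    (by rw [Finset.card_univ]; omega) _ e' rfl (by
      intro g hg
      have : g ∣ u ⬝ᵥ e' := Finset.dvd_sum fun i _ => Dvd.dvd.mul_left (hg i (Finset.mem_univ _)) _
      rw [hu] at this
      exact isUnit_of_dvd_one this)
  have hae' : (a : Matrix ι ι ℤ) *ᵥ e' = Pi.single k 1 := by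
    ext i
    rw [ha i (Finset.mem_univ _), Pi.single_apply]
  have hae : (a : Matrix ι ι ℤ) *ᵥ e = Pi.single k d := by
    rw [hee, mulVec_smul, hae']
    ext i
    by_cases hi : i = k
    · subst hi; simp
    · simp [hi]
  obtain ⟨ψ, hψ⟩ : ∃ ψ, ψ = φ ᵥ* ((a⁻¹ : SpecialLinearGroup ι ℤ) : Matrix ι ι ℤ) := ⟨_, rfl⟩
  have hψ0 : ψ ≠ 0 := by rw [hψ]; exact vecMul_ne_zero _ hφ
  have hψk : ψ k = 0 := by
    have h := vecMul_inv_dot a φ e
    rw [← hψ, hae, h0, dotProduct_single] at h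
    rcases mul_eq_zero.1 h with h | h
    · exact h
    · exact absurd h hd
  obtain ⟨l, hl⟩ := Function.ne_iff.mp hψ0
  have hl0 : ψ l ≠ 0 := hl
  have hlk : l ≠ k := by
    rintro rfl
    exact hl0 hψk
  obtain ⟨j, hjk, hjl⟩ := S_ZDH_third hcard k l
  refine ⟨d * ψ l, mul_ne_zero hd hl0, fun N hN hmem i i' hii s => ?_⟩
  refine S_ZDH_all hcard hN (Ne.symm hjk) ?_ i i' hii
  have h1 : φ ⬝ᵥ e = 0 := h0
  have h2 := hN.conj_mem _ (hmem s) a
  rw [tv_conj (by rw [smul_dotProduct, h0, smul_zero]), hae, smul_vecMul, ← hψ] at h2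
  have h3 : (s • ψ) ⬝ᵥ (Pi.single k d : ι → ℤ) = 0 := by
    rw [smul_dotProduct, dotProduct_single, hψk, zero_mul, smul_zero]
  have h4 : (Pi.single j (1 : ℤ) : ι → ℤ) ⬝ᵥ (Pi.single l 1) = 0 := single_dot (Ne.symm hjl) 1
  have h5 : (Pi.single j (1 : ℤ) : ι → ℤ) ⬝ᵥ (Pi.single k d) = 0 := by
    rw [dotProduct_single, Pi.single_apply, if_neg (Ne.symm hjk), zero_mul]
  have h6 := tv_commutator h3 h4 h5
  have h7 := (S_ZDH_comm hN (a := tv (Pi.single k d) (s • ψ))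
    (b := tv (Pi.single l 1) (Pi.single j 1))).1 h2
  rw [h6] at h7
  have h8 : ((s • ψ) ⬝ᵥ (Pi.single l 1 : ι → ℤ)) • (Pi.single j (1 : ℤ) : ι → ℤ) =
      Pi.single j (s * ψ l) := by
    rw [smul_dotProduct, dotProduct_single, mul_one, smul_eq_mul]
    ext x
    by_cases hx : x = j
    · subst hx; simp
    · simp [hx]
  rw [h8, tv_single_single (Ne.symm hjk)] at h7
  have h9 : s * (d * ψ l) = d * (s * ψ l) := by ring
  rw [h9]
  exact h7

end partA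

section partB

variable {ι : Type} [Fintype ι] [DecidableEq ι]

/-- reduction -/
def S_ZDH_pi (ι : Type) [Fintype ι] [DecidableEq ι] (q : ℕ) :
    SpecialLinearGroup ι ℤ →* SpecialLinearGroup ι (ZMod q) :=
  SpecialLinearGroup.map (Int.castRingHom (ZMod q))

theorem S_ZDH_pi_tv (q : ℕ) {e φ : ι → ℤ} (h : φ ⬝ᵥ e = 0) {c : ℤ} (hc : (q : ℤ) ∣ c) :
    S_ZDH_pi ι q (tv e (c • φ)) = 1 := by
  apply Subtype.ext
  have h1 : (((S_ZDH_pi ι q (tv e (c • φ))) : SpecialLinearGroup ι (ZMod q)) : Matrix ι ι (ZMod q)) =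
      ((tv e (c • φ) : SpecialLinearGroup ι ℤ) : Matrix ι ι ℤ).map (Int.castRingHom (ZMod q)) := rfl
  rw [h1, tv_coe (by rw [smul_dotProduct, h, smul_zero])]
  have hc0 : ((c : ℤ) : ZMod q) = 0 := (ZMod.intCast_zmod_eq_zero_iff_dvd c q).2 hc
  change ((1 + vecMulVec e (c • φ)).map (Int.castRingHom (ZMod q))) = (1 : Matrix ι ι (ZMod q))
  ext i j
  rw [Matrix.map_apply, Matrix.add_apply, vecMulVec_apply, Pi.smul_apply,
    smul_eq_mul, map_add, map_mul, map_mul]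
  have h2 : (Int.castRingHom (ZMod q)) c = 0 := hc0
  rw [h2, zero_mul, mul_zero, add_zero, Matrix.one_apply, Matrix.one_apply]
  split_ifs <;> simp

theorem S_ZDH_top (hcard : 3 ≤ Fintype.card ι) {e φ : ι → ℤ} (he : e ≠ 0) (hφ : φ ≠ 0)
    (h0 : φ ⬝ᵥ e = 0) : ∃ C : ℤ, C ≠ 0 ∧ ∀ (q : ℕ), q.Prime → ¬ (q : ℤ) ∣ C →
      ∀ K : Subgroup (SpecialLinearGroup ι ℤ), (∀ g, S_ZDH_pi ι q g = 1 → g ∈ K) →
        (∀ (γ : SpecialLinearGroup ι ℤ) (s : ℤ), γ * tv e (s • φ) * γ⁻¹ ∈ K) → K = ⊤ := by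
  obtain ⟨C, hC, h1⟩ := S_ZDH_C hcard he hφ h0
  refine ⟨C, hC, fun q hq hqC K hker hconj => ?_⟩
  have h2 := h1 K.normalCore inferInstance (fun s γ => hconj γ s)
  have h3 : ∀ i i', i ≠ i' → ∀ t : ℤ, xe i i' t ∈ K := by
    intro i i' hii t
    have hco : IsCoprime C (q : ℤ) := by
      rw [isCoprime_comm, Int.isCoprime_iff_gcd_eq_one]
      exact (Nat.Prime.coprime_iff_not_dvd hq).2 (fun h => hqC (Int.natCast_dvd.2 h))
    obtain ⟨x, y, hxy⟩ := hco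
    have h4 : t = (t * x) * C + (t * y) * q := by
      linear_combination (-t) * hxy
    have h5 : xe i i' t = xe i i' ((t * x) * C) * xe i i' ((t * y) * q) := by
      unfold xe
      rw [← tv_add_right (single_dot hii _) (single_dot hii _)]
      congr 1
      rw [← Pi.single_add, ← h4]
    rw [h5]
    refine K.mul_mem (Subgroup.normalCore_le K (h2 i i' hii _)) (hker _ ?_)
    have h6 : xe i i' ((t * y) * q) = tv (Pi.single i 1) (((t * y) * q : ℤ) • Pi.single i' (1 : ℤ)) := by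
      unfold xe
      congr 1
      ext l
      by_cases hl : l = i'
      · subst hl; simp
      · simp [hl]
    rw [h6]
    exact S_ZDH_pi_tv q (single_dot hii 1) (Dvd.intro_left _ rfl)
  rw [eq_top_iff, ← ES_univ]
  unfold ES
  rw [Subgroup.closure_le]
  rintro g ⟨i, -, j, -, hij, c, rfl⟩
  exact h3 i j hij c

theorem S_ZDH_dense (H : Subgroup (SpecialLinearGroup ι ℤ))
    (hinf : ∀ B : ℕ, ∃ q : ℕ, B < q ∧
      (H.map (S_ZDH_pi ι q)).comap (S_ZDH_pi ι q) = ⊤) : ZDense H := by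
  intro P hP g
  obtain ⟨q, hq, hK⟩ := hinf
    (MvPolynomial.eval (fun x : ι × ι => (g : Matrix ι ι ℤ) x.1 x.2) P).natAbs
  have hg : g ∈ (H.map (S_ZDH_pi ι q)).comap (S_ZDH_pi ι q) := by
    rw [hK]; exact Subgroup.mem_top g
  rw [Subgroup.mem_comap, Subgroup.mem_map] at hg
  obtain ⟨h, hH, hh⟩ := hg
  have hred : ∀ a : SpecialLinearGroup ι ℤ,
      ((MvPolynomial.eval (fun x : ι × ι => (a : Matrix ι ι ℤ) x.1 x.2) P : ℤ) : ZMod q) =
      MvPolynomial.eval₂ (Int.castRingHom (ZMod q))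
        (fun x : ι × ι => ((S_ZDH_pi ι q a : SpecialLinearGroup ι (ZMod q)) :
          Matrix ι ι (ZMod q)) x.1 x.2) P := by
    intro a
    have h1 := MvPolynomial.eval₂_comp_left (Int.castRingHom (ZMod q)) (RingHom.id ℤ)
      (fun x : ι × ι => (a : Matrix ι ι ℤ) x.1 x.2) P
    rw [MvPolynomial.eval₂_id] at h1
    exact h1
  have h2 := hred g
  have h3 := hred h
  rw [hh, ← h2, hP h hH] at h3
  rw [Int.cast_zero] at h3
  have h4 : (q : ℤ) ∣ MvPolynomial.eval (fun x : ι × ι => (g : Matrix ι ι ℤ) x.1 x.2) P :=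
    (ZMod.intCast_zmod_eq_zero_iff_dvd _ q).1 h3.symm
  exact Int.eq_zero_of_abs_lt_dvd h4 (by
    rw [Int.abs_eq_natAbs]
    exact_mod_cast hq)

end partB

section partC

theorem S_ZDH_zi (m : ℕ) (hm : 1 ≤ m) (x : ZI m) :
    ∃ (a : ℕ) (z : ℤ), (m : ℚ) ^ a * (x : ℚ) = z := by
  obtain ⟨x, hx⟩ := x
  have hm0 : (m : ℚ) ≠ 0 := by positivity
  change ∃ (a : ℕ) (z : ℤ), (m : ℚ) ^ a * x = z
  induction hx using Algebra.adjoin_induction with
  | mem x hx =>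
    rw [Set.mem_singleton_iff] at hx
    subst hx
    refine ⟨1, 1, ?_⟩
    rw [pow_one, mul_inv_cancel₀ hm0]
    simp
  | algebraMap r =>
    refine ⟨0, r, ?_⟩
    simp
  | add x y _ _ hx hy =>
    obtain ⟨a, z, h1⟩ := hx
    obtain ⟨b, w, h2⟩ := hy
    refine ⟨a + b, (m : ℤ) ^ b * z + (m : ℤ) ^ a * w, ?_⟩
    push_cast
    rw [← h1, ← h2]
    ring
  | mul x y _ _ hx hy =>
    obtain ⟨a, z, h1⟩ := hx
    obtain ⟨b, w, h2⟩ := hy
    refine ⟨a + b, z * w, ?_⟩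
    push_cast
    rw [← h1, ← h2]
    ring

theorem S_ZDH_vec (m : ℕ) (hm : 1 ≤ m) {n : ℕ} (x : Fin n → ZI m) :
    ∃ (a : ℕ) (z : Fin n → ℤ), ∀ i, (z i : ZI m) = (m : ZI m) ^ a * x i := by
  choose a z h using fun i => S_ZDH_zi m hm (x i)
  refine ⟨∑ i, a i, fun i => (m : ℤ) ^ (∑ j ∈ Finset.univ.erase i, a j) * z i, fun i => ?_⟩
  apply Subtype.ext
  have h1 : (((m : ZI m) ^ (∑ i, a i) * x i : ZI m) : ℚ) = (m : ℚ) ^ (∑ i, a i) * (x i : ℚ) := by
    simp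
  have h2 : ((((m : ℤ) ^ (∑ j ∈ Finset.univ.erase i, a j) * z i : ℤ) : ZI m) : ℚ) =
      (m : ℚ) ^ (∑ j ∈ Finset.univ.erase i, a j) * (z i : ℚ) := by
    simp
  rw [h1, h2, ← h i, ← Finset.add_sum_erase _ _ (Finset.mem_univ i), pow_add]
  ring

theorem S_ZDH_den (m q : ℕ) (hm : 1 ≤ m) (hq : q.Prime) (hqm : ¬ q ∣ m) (x : ZI m) :
    (((x : ℚ).den : ℕ) : ZMod q) ≠ 0 := by
  obtain ⟨a, z, h⟩ := S_ZDH_zi m hm x
  have hm0 : (m : ℚ) ≠ 0 := by positivity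
  have h1 : (x : ℚ) = Rat.divInt z ((m : ℤ) ^ a) := by
    rw [Rat.divInt_eq_div, ← h]
    push_cast
    field_simp
  have h2 : (((x : ℚ).den : ℕ) : ℤ) ∣ ((m : ℤ) ^ a) := by
    rw [h1]
    exact Rat.den_dvd z _
  intro h3
  rw [ZMod.natCast_eq_zero_iff] at h3
  have h4 : q ∣ m ^ a := h3.trans (by exact_mod_cast h2)
  exact hqm (hq.dvd_of_dvd_pow h4)

/-- reduction of `ℤ[1/m]` -/
noncomputable def S_ZDH_psi (m q : ℕ) [hq : Fact q.Prime] (hm : 1 ≤ m) (hqm : ¬ q ∣ m) :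
    ZI m →+* ZMod q where
  toFun x := ((x : ℚ) : ZMod q)
  map_one' := by simp
  map_zero' := by simp
  map_add' x y := by
    have h := Rat.cast_add_of_ne_zero (α := ZMod q) (S_ZDH_den m q hm hq.out hqm x)
      (S_ZDH_den m q hm hq.out hqm y)
    exact h
  map_mul' x y := by
    have h := Rat.cast_mul_of_ne_zero (α := ZMod q) (S_ZDH_den m q hm hq.out hqm x)
      (S_ZDH_den m q hm hq.out hqm y)
    exact h

end partC

section partD

variable {n : ℕ}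

theorem S_ZDH_coe_incI (m : ℕ) (g : SLZ n) (i j : Fin n) :
    ((incI n m g : SLI n m) : Matrix (Fin n) (Fin n) (ZI m)) i j =
      (((g : Matrix (Fin n) (Fin n) ℤ) i j : ℤ) : ZI m) := by
  change algebraMap ℤ (ZI m) ((g : Matrix (Fin n) (Fin n) ℤ) i j) = _
  rw [eq_intCast]

theorem S_ZDH_Psi_incI (m q : ℕ) [hq : Fact q.Prime] (hm : 1 ≤ m) (hqm : ¬ q ∣ m) (g : SLZ n) :
    SpecialLinearGroup.map (S_ZDH_psi m q hm hqm) (incI n m g) = S_ZDH_pi (Fin n) q g := by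
  apply Subtype.ext
  ext i j
  change S_ZDH_psi m q hm hqm (((incI n m g : SLI n m) : Matrix (Fin n) (Fin n) (ZI m)) i j) =
    (Int.castRingHom (ZMod q)) ((g : Matrix (Fin n) (Fin n) ℤ) i j)
  rw [S_ZDH_coe_incI, map_intCast, eq_intCast]

theorem S_ZDH_incI_tv (m : ℕ) {e φ : Fin n → ℤ} (h0 : φ ⬝ᵥ e = 0) :
    ((incI n m (tv e φ) : SLI n m) : Matrix (Fin n) (Fin n) (ZI m)) =
      1 + vecMulVec (fun i => (e i : ZI m)) (fun i => (φ i : ZI m)) := by
  ext i j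
  rw [S_ZDH_coe_incI, tv_coe h0, Matrix.add_apply, Matrix.add_apply, vecMulVec_apply,
    vecMulVec_apply, Matrix.one_apply, Matrix.one_apply]
  split_ifs <;> push_cast <;> rfl

theorem S_ZDH_dotinv {R : Type} [CommRing R] (x : SpecialLinearGroup (Fin n) R) (φ e : Fin n → R) :
    (φ ᵥ* ((x⁻¹ : SpecialLinearGroup (Fin n) R) : Matrix (Fin n) (Fin n) R)) ⬝ᵥ
      ((x : Matrix (Fin n) (Fin n) R) *ᵥ e) = φ ⬝ᵥ e := by
  rw [← dotProduct_mulVec, mulVec_mulVec, ← Matrix.SpecialLinearGroup.coe_mul, inv_mul_cancel]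
  simp

theorem S_ZDH_conj (m q : ℕ) [hq : Fact q.Prime] (hm : 1 ≤ m) (hqm : ¬ q ∣ m)
    (Δ : Subgroup (SLI n m)) (hΔ : DenI Δ) {e φ : Fin n → ℤ} (h0 : φ ⬝ᵥ e = 0)
    (hmem : incI n m (tv e φ) ∈ Δ) (γ : SLZ n) (s : ℤ) :
    γ * tv e (s • φ) * γ⁻¹ ∈
      ((Δ.comap (incI n m)).map (S_ZDH_pi (Fin n) q)).comap (S_ZDH_pi (Fin n) q) := by
  obtain ⟨x, hx, hxγ⟩ := hΔ q hq.out.one_lt.le (hq.out.coprime_iff_not_dvd.2 hqm) γ
  have hΨx : SpecialLinearGroup.map (S_ZDH_psi m q hm hqm) x = S_ZDH_pi (Fin n) q γ := by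
    apply Subtype.ext
    ext i j
    obtain ⟨a, ha⟩ := hxγ i j
    have h1 : (x : Matrix (Fin n) (Fin n) (ZI m)) i j =
        (((γ : Matrix (Fin n) (Fin n) ℤ) i j : ℤ) : ZI m) + (q : ZI m) * a := by
      apply Subtype.ext
      have h2 : ((((γ : Matrix (Fin n) (Fin n) ℤ) i j : ℤ) : ZI m) : ℚ) =
          ((γ : Matrix (Fin n) (Fin n) ℤ) i j : ℚ) := by simp
      have h3 : ((((((γ : Matrix (Fin n) (Fin n) ℤ) i j : ℤ) : ZI m) + (q : ZI m) * a) : ZI m) : ℚ) =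
          ((γ : Matrix (Fin n) (Fin n) ℤ) i j : ℚ) + (q : ℚ) * (a : ℚ) := by simp
      rw [h3, ← ha]
      change ratM x i j = _
      ring
    change S_ZDH_psi m q hm hqm ((x : Matrix (Fin n) (Fin n) (ZI m)) i j) =
      (Int.castRingHom (ZMod q)) ((γ : Matrix (Fin n) (Fin n) ℤ) i j)
    rw [h1, map_add, map_mul, map_natCast, map_intCast, ZMod.natCast_self, zero_mul, add_zero,
      eq_intCast]
  obtain ⟨E, hE⟩ : ∃ E : Fin n → ZI m, E = fun i => (e i : ZI m) := ⟨_, rfl⟩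
  obtain ⟨F, hF⟩ : ∃ F : Fin n → ZI m, F = fun i => (φ i : ZI m) := ⟨_, rfl⟩
  have hFE : F ⬝ᵥ E = 0 := by
    have h := congrArg (fun z : ℤ => (z : ZI m)) h0
    simp only [dotProduct, Int.cast_sum, Int.cast_mul, Int.cast_zero] at h
    rw [hE, hF]
    exact h
  obtain ⟨a, e', he'⟩ := S_ZDH_vec m hm ((x : Matrix (Fin n) (Fin n) (ZI m)) *ᵥ E)
  obtain ⟨b, φ', hφ'⟩ := S_ZDH_vec m hm (F ᵥ* ((x⁻¹ : SLI n m) : Matrix (Fin n) (Fin n) (ZI m)))
  have hdot : φ' ⬝ᵥ e' = 0 := by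
    have h1 : ((φ' ⬝ᵥ e' : ℤ) : ZI m) = (m : ZI m) ^ a * (m : ZI m) ^ b * (F ⬝ᵥ E) := by
      rw [← S_ZDH_dotinv x F E]
      simp only [dotProduct, Int.cast_sum, Int.cast_mul, he', hφ']
      rw [Finset.mul_sum]
      refine Finset.sum_congr rfl fun i _ => ?_
      ring
    rw [hFE, mul_zero] at h1
    exact_mod_cast congrArg (fun z : ZI m => (z : ℚ)) h1
  have hco : IsCoprime ((m : ℤ) ^ a * (m : ℤ) ^ b) (q : ℤ) := by
    rw [← pow_add]
    refine IsCoprime.pow_left ?_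
    rw [Nat.isCoprime_iff_coprime]
    exact (hq.out.coprime_iff_not_dvd.2 hqm).symm
  obtain ⟨u, v, huv⟩ := hco
  obtain ⟨N, hN⟩ : ∃ N : ℤ, N = s * u * ((m : ℤ) ^ a * (m : ℤ) ^ b) := ⟨_, rfl⟩
  have hNs : (q : ℤ) ∣ s - N := by
    refine ⟨s * v, ?_⟩
    rw [hN]
    linear_combination (-s) * huv
  have hdot' : ((s * u) • φ') ⬝ᵥ e' = 0 := by rw [smul_dotProduct, hdot, smul_zero]
  have hNdot : (N • φ) ⬝ᵥ e = 0 := by rw [smul_dotProduct, h0, smul_zero]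
  have hinc : incI n m (tv e' ((s * u) • φ')) = x * incI n m (tv e (N • φ)) * x⁻¹ := by
    apply Subtype.ext
    change ((incI n m (tv e' ((s * u) • φ')) : SLI n m) : Matrix (Fin n) (Fin n) (ZI m)) =
      (x : Matrix (Fin n) (Fin n) (ZI m)) *
        ((incI n m (tv e (N • φ)) : SLI n m) : Matrix (Fin n) (Fin n) (ZI m)) *
        ((x⁻¹ : SLI n m) : Matrix (Fin n) (Fin n) (ZI m))
    rw [S_ZDH_incI_tv m hdot', S_ZDH_incI_tv m hNdot, Matrix.mul_add, Matrix.add_mul,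
      Matrix.mul_one, ← Matrix.SpecialLinearGroup.coe_mul, mul_inv_cancel,
      Matrix.SpecialLinearGroup.coe_one, mul_vecMulVec, vecMulVec_mul]
    have h1 : (fun i => (((N • φ) i : ℤ) : ZI m)) = (N : ZI m) • F := by
      funext i
      rw [hF]
      simp
    rw [h1, smul_vecMul, ← hE]
    congr 1
    ext1 i j
    rw [vecMulVec_apply, vecMulVec_apply, Pi.smul_apply, smul_eq_mul, he' i, Pi.smul_apply,
      smul_eq_mul, Int.cast_mul, hφ' j, hN]
    push_cast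
    ring
  have hmemN : incI n m (tv e (N • φ)) ∈ Δ := by
    rw [tv_zsmul_right h0, map_zpow]
    exact Δ.zpow_mem hmem N
  have hmemh : tv e' ((s * u) • φ') ∈ Δ.comap (incI n m) := by
    rw [Subgroup.mem_comap, hinc]
    exact Δ.mul_mem (Δ.mul_mem hx hmemN) (Δ.inv_mem hx)
  rw [Subgroup.mem_comap, Subgroup.mem_map]
  refine ⟨_, hmemh, ?_⟩
  have hpiN : S_ZDH_pi (Fin n) q (tv e (s • φ)) = S_ZDH_pi (Fin n) q (tv e (N • φ)) := by
    have h1 : s • φ = N • φ + (s - N) • φ := by rw [← add_smul]; congr 1; ring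
    rw [h1, tv_add_right hNdot (by rw [smul_dotProduct, h0, smul_zero]), map_mul,
      S_ZDH_pi_tv q h0 hNs, mul_one]
  rw [← S_ZDH_Psi_incI m q hm hqm, hinc, map_mul, map_mul, map_inv, S_ZDH_Psi_incI, hΨx, map_mul,
    map_mul, map_inv, hpiN]

end partD

section partE

theorem S_ZDH_rank {n : ℕ} {F : Type} [Field F] (A : Matrix (Fin n) (Fin n) F) (h : A.rank = 1) :
    ∃ u v : Fin n → F, A = vecMulVec u v := by
  unfold Matrix.rank at h
  obtain ⟨w, hw, hall⟩ := finrank_eq_one_iff'.1 h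
  have h1 : ∀ j, ∃ c : F, ∀ i, A i j = (w : Fin n → F) i * c := by
    intro j
    obtain ⟨c, hc⟩ := hall ⟨A.mulVecLin (Pi.single j 1), ⟨_, rfl⟩⟩
    refine ⟨c, fun i => ?_⟩
    have h2 := congrFun (congrArg Subtype.val hc) i
    simp only [Matrix.mulVecLin_apply, Matrix.mulVec_single_one] at h2
    have h3 : c * (w : Fin n → F) i = A i j := h2
    rw [← h3, mul_comm]
  choose c hc using h1
  refine ⟨w, c, ?_⟩
  ext i j
  rw [vecMulVec_apply]
  exact hc j i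

theorem S_ZDH_clear {n : ℕ} (u : Fin n → ℚ) :
    ∃ (D : ℕ) (e : Fin n → ℤ), 1 ≤ D ∧ ∀ i, (e i : ℚ) = D * u i := by
  refine ⟨∏ i, (u i).den,
    fun i => ((∏ j ∈ Finset.univ.erase i, (u j).den : ℕ) : ℤ) * (u i).num, ?_, ?_⟩
  · exact Finset.prod_pos fun i _ => (u i).den_pos
  · intro i
    rw [← Finset.mul_prod_erase _ _ (Finset.mem_univ i)]
    have h := Rat.mul_den_eq_num (u i)
    push_cast
    rw [← h]
    ring

theorem S_ZDH_det {n : ℕ} (u v : Fin n → ℚ) : (1 + vecMulVec u v).det = 1 + v ⬝ᵥ u := by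
  have h : vecMulVec u v = replicateCol Unit u * replicateRow Unit v := by
    ext i j
    simp [vecMulVec_apply, Matrix.mul_apply]
  rw [h, det_one_add_replicateCol_mul_replicateRow]

theorem S_ZDH_pow {n : ℕ} (u v : Fin n → ℚ) (h : v ⬝ᵥ u = 0) (k : ℕ) :
    (1 + vecMulVec u v) ^ k = 1 + (k : ℚ) • vecMulVec u v := by
  induction k with
  | zero => simp
  | succ k ih =>
    rw [pow_succ, ih, Matrix.add_mul, Matrix.mul_add, Matrix.mul_add, Matrix.smul_mul,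
      Matrix.smul_mul, vecMulVec_mul_vecMulVec, h]
    push_cast
    simp only [Matrix.one_mul, Matrix.mul_one, zero_smul, smul_zero, add_zero, add_smul, one_smul,
      vecMulVec_zero]
    abel

theorem S_ZDH_ratM_mul {n m : ℕ} (x y : SLI n m) : ratM (x * y) = ratM x * ratM y := by
  change (SpecialLinearGroup.map (algebraMap (ZI m) ℚ) (x * y) :
      SpecialLinearGroup (Fin n) ℚ).1 = _
  rw [map_mul]
  rfl

theorem S_ZDH_ratM_pow {n m : ℕ} (x : SLI n m) (k : ℕ) : ratM (x ^ k) = ratM x ^ k := by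
  change (SpecialLinearGroup.map (algebraMap (ZI m) ℚ) (x ^ k) :
      SpecialLinearGroup (Fin n) ℚ).1 = _
  rw [map_pow]
  rfl

theorem S_ZDH_ratM_inj {n m : ℕ} {x y : SLI n m} (h : ratM x = ratM y) : x = y := by
  apply Subtype.ext
  ext i j
  exact congrFun (congrFun h i) j

theorem S_ZDH : S_ZDH_stmt := by
  intro n hn m hm Δ hΔ z hz hrank
  obtain ⟨u, v, huv⟩ := S_ZDH_rank _ hrank
  have hzM : ratM z = 1 + vecMulVec u v := by rw [← huv]; abel
  have hdet : (ratM z).det = 1 :=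
    (SpecialLinearGroup.map (algebraMap (ZI m) ℚ) z : SpecialLinearGroup (Fin n) ℚ).2
  have hvu : v ⬝ᵥ u = 0 := by
    rw [hzM, S_ZDH_det] at hdet
    linarith
  obtain ⟨D1, e, hD1, he⟩ := S_ZDH_clear u
  obtain ⟨D2, φ, hD2, hφ⟩ := S_ZDH_clear v
  have h0 : φ ⬝ᵥ e = 0 := by
    have h1 : ((φ ⬝ᵥ e : ℤ) : ℚ) = (D1 : ℚ) * D2 * (v ⬝ᵥ u) := by
      simp only [dotProduct, Int.cast_sum, Int.cast_mul, he, hφ]
      rw [Finset.mul_sum]
      refine Finset.sum_congr rfl fun i _ => ?_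
      ring
    rw [hvu, mul_zero] at h1
    exact_mod_cast h1
  have hD1' : (D1 : ℚ) ≠ 0 := by positivity
  have hD2' : (D2 : ℚ) ≠ 0 := by positivity
  have he0 : e ≠ 0 := by
    rintro rfl
    have hu : u = 0 := by
      funext i
      have h := he i
      simp only [Pi.zero_apply, Int.cast_zero] at h
      rcases mul_eq_zero.1 h.symm with h | h
      · exact absurd h hD1'
      · exact h
    rw [huv, hu, zero_vecMulVec, Matrix.rank_zero] at hrank
    exact absurd hrank (by norm_num)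
  have hφ0 : φ ≠ 0 := by
    rintro rfl
    have hv : v = 0 := by
      funext i
      have h := hφ i
      simp only [Pi.zero_apply, Int.cast_zero] at h
      rcases mul_eq_zero.1 h.symm with h | h
      · exact absurd h hD2'
      · exact h
    rw [huv, hv, vecMulVec_zero, Matrix.rank_zero] at hrank
    exact absurd hrank (by norm_num)
  have hpow : incI n m (tv e φ) = z ^ (D1 * D2) := by
    apply S_ZDH_ratM_inj
    rw [S_ZDH_ratM_pow, hzM, S_ZDH_pow u v hvu]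
    ext i j
    have h1 : ratM (incI n m (tv e φ)) i j =
        ((((tv e φ : SLZ n) : Matrix (Fin n) (Fin n) ℤ) i j : ℤ) : ℚ) := by
      change ((((incI n m (tv e φ) : SLI n m) : Matrix (Fin n) (Fin n) (ZI m)) i j : ZI m) : ℚ) = _
      rw [S_ZDH_coe_incI]
      simp
    rw [h1, tv_coe h0, Matrix.add_apply, Matrix.add_apply, Matrix.smul_apply, vecMulVec_apply,
      vecMulVec_apply, Int.cast_add, Int.cast_mul, he i, hφ j, Matrix.one_apply, Matrix.one_apply,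
      smul_eq_mul]
    split_ifs <;> push_cast <;> ring
  have hmem : incI n m (tv e φ) ∈ Δ := by
    rw [hpow]
    exact Δ.pow_mem hz _
  obtain ⟨C, hC, hK⟩ := S_ZDH_top (by rw [Fintype.card_fin]; exact hn) he0 hφ0 h0
  apply S_ZDH_dense
  intro B
  obtain ⟨q, hq, hqp⟩ := Nat.exists_infinite_primes (B + m + C.natAbs + 1)
  have hfact : Fact q.Prime := ⟨hqp⟩
  have hqm : ¬ q ∣ m := by
    intro h
    have := Nat.le_of_dvd hm h
    omega
  have hqC : ¬ (q : ℤ) ∣ C := by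
    intro h
    have h2 : q ∣ C.natAbs := Int.natCast_dvd.1 h
    have := Nat.le_of_dvd (Int.natAbs_pos.2 hC) h2
    omega
  refine ⟨q, by omega, hK q hqp hqC _ ?_ ?_⟩
  · intro g hg
    rw [Subgroup.mem_comap, hg]
    exact Subgroup.one_mem _
  · intro γ s
    exact S_ZDH_conj m q hm hqm Δ hΔ h0 hmem γ s

end partE

end Pool.Agent.PR
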